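import Pool.Agent.Helper28.ND.Spec4

set_option autoImplicit false

namespace Pool.Agent.Helper66.ND.NUM

open Pool.Agent.Helper28.ND

theorem rr_succ (n0 N k : ℕ) : rr n0 N (k + 1) = rr n0 N k / N := by
  unfold rr
  push_cast
  rw [pow_succ, div_div]
  ring_nf

theorem rr_pos {n0 N : ℕ} (h0 : 160 ≤ n0) (hN : 0 < N) (k : ℕ) : 0 < rr n0 N k := by
  unfold rr
  have h1 : 0 < n0 * N ^ k := Nat.mul_pos (by omega) (pow_pos hN k)
  have h2 : (0 : ℝ) < ((n0 * N ^ k : ℕ) : ℝ) := by exact_mod_cast h1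
  exact div_pos one_pos h2

theorem rr_le {n0 N : ℕ} (h0 : 160 ≤ n0) (hN : 0 < N) (k : ℕ) : rr n0 N k ≤ 1 / 160 := by
  unfold rr
  have h1 : 160 ≤ n0 * N ^ k := by
    calc 160 = 160 * 1 := by norm_num
      _ ≤ n0 * N ^ k := Nat.mul_le_mul h0 (Nat.one_le_pow _ _ hN)
  have h2 : (160 : ℝ) ≤ ((n0 * N ^ k : ℕ) : ℝ) := by exact_mod_cast h1
  exact div_le_div_of_nonneg_left zero_le_one (by norm_num) h2

theorem rr_le_zero {n0 N : ℕ} (h0 : 160 ≤ n0) (hN : 0 < N) (k : ℕ) :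
    rr n0 N k ≤ rr n0 N 0 := by
  unfold rr
  have h1 : n0 * N ^ 0 ≤ n0 * N ^ k := by
    rw [pow_zero]
    exact Nat.mul_le_mul le_rfl (Nat.one_le_pow _ _ hN)
  have h3 : (0 : ℝ) < ((n0 * N ^ 0 : ℕ) : ℝ) := by
    have : 0 < n0 * N ^ 0 := by rw [pow_zero]; omega
    exact_mod_cast this
  have h2 : ((n0 * N ^ 0 : ℕ) : ℝ) ≤ ((n0 * N ^ k : ℕ) : ℝ) := by exact_mod_cast h1
  exact div_le_div_of_nonneg_left zero_le_one h3 h2

theorem KC_bound {r N M : ℝ} (hr : 0 < r) (hN : 4 * 10 ^ 7 ≤ N) (hM : 1 ≤ M)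
    (hNM : 24576 * M ≤ N) : 2 * M * (16 * (r / N) ^ 2) ≤ r ^ 2 / 1000 := by
  have hN0 : 0 < N := by linarith
  have h1 : 2 * M * (16 * (r / N) ^ 2) = r ^ 2 * (32 * M / N ^ 2) := by
    field_simp
    ring
  have h2 : 32 * M / N ^ 2 ≤ 1 / 1000 := by
    rw [div_le_div_iff₀ (by positivity) (by norm_num)]
    nlinarith
  rw [h1]
  have h3 : 0 ≤ r ^ 2 := sq_nonneg r
  calc r ^ 2 * (32 * M / N ^ 2) ≤ r ^ 2 * (1 / 1000) := mul_le_mul_of_nonneg_left h2 h3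
    _ = r ^ 2 / 1000 := by ring

theorem main : S_NUM := by
  intro T n0 N M hP k
  have hN2 := hP.hN2
  have hN0 : 0 < N := by omega
  have hr := rr_pos hP.hn hN0 k
  have hr1 := rr_pos hP.hn hN0 (k + 1)
  have hrs := rr_succ n0 N k
  have hle := rr_le hP.hn hN0 k
  have hle0 := rr_le_zero hP.hn hN0 k
  have hNr : (4 * 10 ^ 7 : ℝ) ≤ (N : ℝ) := by exact_mod_cast hN2
  have hMr : (1 : ℝ) ≤ (M : ℝ) := by exact_mod_cast hP.hM
  have hNMr : (24576 : ℝ) * (M : ℝ) ≤ (N : ℝ) := by exact_mod_cast hP.hNM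
  have hN0r : (0 : ℝ) < (N : ℝ) := by exact_mod_cast hN0
  have hL : LL n0 N k = 16 * (rr n0 N k) ^ 2 := rfl
  have hL1 : LL n0 N (k + 1) = 16 * (rr n0 N k / N) ^ 2 := by
    show 16 * (rr n0 N (k + 1)) ^ 2 = _
    rw [hrs]
  have hLpos : 0 < LL n0 N k := by rw [hL]; positivity
  have hL1pos : 0 < LL n0 N (k + 1) := by
    show 0 < 16 * (rr n0 N (k + 1)) ^ 2
    positivity
  have hLT : LL n0 N k ≤ T / 2 := by
    refine le_trans ?_ hP.hL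
    rw [hL]
    show 16 * (rr n0 N k) ^ 2 ≤ 16 * (rr n0 N 0) ^ 2
    have : (rr n0 N k) ^ 2 ≤ (rr n0 N 0) ^ 2 := pow_le_pow_left₀ hr.le hle0 2
    linarith
  have hKpos : 0 < KC n0 N M k := by
    show 0 < 2 * (M : ℝ) * LL n0 N (k + 1)
    have : (0 : ℝ) < M := by linarith
    positivity
  have hKle : KC n0 N M k ≤ (rr n0 N k) ^ 2 / 1000 := by
    show 2 * (M : ℝ) * LL n0 N (k + 1) ≤ _
    rw [hL1]
    exact KC_bound hr hNr hMr hNMr
  have hVpos : 0 < VV n0 N M k := by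
    show 0 < (rr n0 N k / (64 * (M : ℝ))) / LL n0 N (k + 1)
    have : (0 : ℝ) < M := by linarith
    positivity
  have h15 : 15 * (rr n0 N k) ^ 2 ≤ LL n0 N k - KC n0 N M k := by
    rw [hL]
    have h0 : 0 ≤ (rr n0 N k) ^ 2 := sq_nonneg _
    linarith
  have h16 : LL n0 N k - KC n0 N M k ≤ 16 * (rr n0 N k) ^ 2 := by
    rw [hL]
    linarith
  have hsq : 0 ≤ (rr n0 N k) ^ 2 := sq_nonneg _
  have hR1 : 16 * rr n0 N k ≤ RR (LL n0 N k - KC n0 N M k) := by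
    show 16 * rr n0 N k ≤ Real.sqrt (24 * (LL n0 N k - KC n0 N M k))
    apply Real.le_sqrt_of_sq_le
    have : (16 * rr n0 N k) ^ 2 = 256 * (rr n0 N k) ^ 2 := by ring
    rw [this]
    linarith
  have hR2 : RR (LL n0 N k - KC n0 N M k) ≤ 20 * rr n0 N k := by
    show Real.sqrt (24 * (LL n0 N k - KC n0 N M k)) ≤ 20 * rr n0 N k
    rw [Real.sqrt_le_left (by positivity)]
    have : (20 * rr n0 N k) ^ 2 = 400 * (rr n0 N k) ^ 2 := by ring
    rw [this]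
    linarith
  refine ⟨hr, hrs, hle, hLpos, hLT, hL1, hKpos, hKle, hVpos, h15, hR1, hR2, ?_⟩
  calc RR (LL n0 N k - KC n0 N M k) ≤ 20 * rr n0 N k := hR2
    _ ≤ 1 / 8 := by linarith

end Pool.Agent.Helper66.ND.NUM
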